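import Pool.Agent.H80R2.MN.Ring

/-!
# Malcev-Neumann series: inverses and order
-/

set_option autoImplicit false
set_option linter.unusedSectionVars false

namespace Pool.Agent.H80R2

universe u v

namespace MN

variable {G : Type u} [Group G] [LinearOrder G] [MulLeftStrictMono G] [MulRightStrictMono G]
variable {k : Type v}

section div

variable [DivisionRing k]

theorem exists_lead {f : MN G k} (hf : f ≠ 0) :
    ∃ φ, co f φ ≠ 0 ∧ ∀ y, y < φ → co f y = 0 := by
  have hne : (Function.support (co f)).Nonempty := by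
    by_contra h
    rw [Set.not_nonempty_iff_eq_empty, Function.support_eq_empty_iff] at h
    apply hf
    apply ext'
    intro x
    rw [h]
    rfl
  refine ⟨(wf f).min hne, (wf f).min_mem hne, ?_⟩
  intro y hy
  by_contra h
  exact (wf f).not_lt_min hne (show y ∈ Function.support (co f) from h) hy

theorem mul_le_of_le {s y φ x : G} (h1 : φ ≤ s) (h2 : y ≤ φ * x) : s⁻¹ * y ≤ x := by
  have h3 : y ≤ s * x := by
    rcases eq_or_lt_of_le h1 with h | h
    · rwa [← h]
    · exact le_trans h2 (mul_lt_mul_left h x).le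
  rcases eq_or_lt_of_le h3 with h | h
  · rw [h, inv_mul_cancel_left]
  · have := mul_lt_mul_right h s⁻¹
    rw [inv_mul_cancel_left] at this
    exact this.le

theorem exists_right_inv {f : MN G k} (hf : f ≠ 0) : ∃ g : MN G k, f * g = 1 := by
  classical
  obtain ⟨φ, hφ, hφlt⟩ := exists_lead hf
  let Good : MN G k → Prop := fun g =>
    ∀ x, co g x ≠ 0 → ∀ y, co (1 - f * g) y ≠ 0 → φ * x < y
  let r : {g : MN G k // Good g} → {g : MN G k // Good g} → Prop := fun g g' =>
    ∀ x, co g.1 x ≠ 0 → ∀ y, y ≤ x → co g'.1 y = co g.1 y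
  have hrefl : ∀ g, r g g := fun g x _ y _ => rfl
  have : Std.Refl r := ⟨hrefl⟩
  obtain ⟨⟨g, hg⟩, hmax⟩ := exists_maximal_of_chains_bounded (r := r) (by
    intro c hc
    let cf : G → k := fun y =>
      if h : ∃ g, g ∈ c ∧ co g.1 y ≠ 0 then co h.choose.1 y else 0
    have hag : ∀ g ∈ c, ∀ x, co g.1 x ≠ 0 → ∀ y, y ≤ x → cf y = co g.1 y := by
      intro g hgc x hx y hyx
      by_cases h : ∃ g, g ∈ c ∧ co g.1 y ≠ 0
      · have h1 : cf y = co h.choose.1 y := by simp only [cf, dif_pos h]
        rw [h1]
        rcases hc.total hgc h.choose_spec.1 with h2 | h2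
        · exact h2 x hx y hyx
        · exact (h2 y h.choose_spec.2 y le_rfl).symm
      · have h1 : cf y = 0 := by simp only [cf, dif_neg h]
        rw [h1]
        by_contra h2
        exact h ⟨g, hgc, fun h3 => h2 h3.symm⟩
    have hex : ∀ x, cf x ≠ 0 → ∃ g, g ∈ c ∧ co g.1 x ≠ 0 := by
      intro x hx
      by_contra h
      apply hx
      simp only [cf, dif_neg h]
    have hwf : (Function.support cf).IsWF := by
      rw [Set.isWF_iff_no_descending_seq]
      intro a ha hmem
      obtain ⟨g, hgc, hg0⟩ := hex (a 0) (hmem 0)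
      have h1 := (Set.isWF_iff_no_descending_seq.1 (wf g.1)) a ha
      apply h1
      intro n
      have h2 : a n ≤ a 0 := ha.antitone (Nat.zero_le n)
      have h3 := hag g hgc (a 0) hg0 (a n) h2
      have h4 : cf (a n) ≠ 0 := hmem n
      rw [h3] at h4
      exact h4
    refine ⟨⟨mk cf hwf, ?_⟩, ?_⟩
    · intro x hx y hy
      rw [co_mk] at hx
      obtain ⟨g, hgc, hgx⟩ := hex x hx
      by_contra hlt
      have hle : y ≤ φ * x := not_lt.1 hlt
      have h1 : co (f * mk cf hwf) y = co (f * g.1) y := by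
        rw [co_mul, co_mul]
        apply finsum_congr
        intro s
        by_cases hs : co f s = 0
        · rw [hs, zero_mul, zero_mul]
        · have hφs : φ ≤ s := by
            by_contra h
            exact hs (hφlt s (not_le.1 h))
          rw [co_mk, hag g hgc x hgx _ (mul_le_of_le hφs hle)]
      have h2 : co (1 - f * g.1) y ≠ 0 := by
        rw [co_sub] at hy ⊢
        rw [← h1]
        exact hy
      exact hlt (g.2 x hgx y h2)
    · intro g hgc x hx y hyx
      exact hag g hgc x hx y hyx) (by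
    intro a b c hab hbc x hx y hyx
    have h1 := hab x hx x le_rfl
    have h2 := hbc x (by rw [h1]; exact hx) y hyx
    rw [h2]
    exact hab x hx y hyx)
  refine ⟨g, ?_⟩
  by_contra hne
  have hw : (1 - f * g) ≠ 0 := fun h => hne (sub_eq_zero.1 h).symm
  obtain ⟨μ, hμ, hμlt⟩ := exists_lead hw
  let x0 : G := φ⁻¹ * μ
  have hx0 : φ * x0 = μ := by simp [x0]
  have hlt : ∀ x, co g x ≠ 0 → x < x0 := by
    intro x hx
    have h1 := hg x hx μ hμ
    have h2 := mul_lt_mul_right h1 φ⁻¹
    rwa [inv_mul_cancel_left] at h2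
  have hgx0 : ∀ x, x0 ≤ x → co g x = 0 := by
    intro x hx
    by_contra h
    exact absurd (hlt x h) (not_lt.2 hx)
  let a : k := (co f φ)⁻¹ * co (1 - f * g) μ
  have ha : a ≠ 0 := mul_ne_zero (inv_ne_zero hφ) hμ
  have hco : ∀ y, co (1 - f * (g + single x0 a)) y =
      co (1 - f * g) y - co f (y * x0⁻¹) * a := by
    intro y
    rw [mul_add, ← sub_sub, co_sub, co_mul_single]
  have hgood : Good (g + single x0 a) := by
    intro x hx y hy
    have hxle : x ≤ x0 := by
      by_contra h
      apply hx
      rw [co_add, hgx0 x (not_le.1 h).le, co_single_of_ne a (ne_of_gt (not_le.1 h)), add_zero]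
    have hμy : μ < y := by
      by_contra h
      apply hy
      rw [hco]
      rcases eq_or_lt_of_le (not_lt.1 h) with h1 | h1
      · have h2 : y * x0⁻¹ = φ := by rw [h1, ← hx0]; simp
        rw [h2, h1]
        show _ - co f φ * ((co f φ)⁻¹ * co (1 - f * g) μ) = 0
        rw [← mul_assoc, mul_inv_cancel₀ hφ, one_mul, sub_self]
      · have h2 : y * x0⁻¹ < φ := by
          have := mul_lt_mul_left h1 x0⁻¹
          rw [← hx0] at this
          simpa using this
        rw [hμlt y h1, hφlt _ h2, zero_mul, sub_zero]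
    refine lt_of_le_of_lt ?_ hμy
    rw [← hx0]
    rcases eq_or_lt_of_le hxle with h | h
    · rw [h]
    · exact (mul_lt_mul_right h φ).le
  have hr : r ⟨g, hg⟩ ⟨g + single x0 a, hgood⟩ := by
    intro x hx y hyx
    show co (g + single x0 a) y = co g y
    rw [co_add, co_single_of_ne a (ne_of_lt (lt_of_le_of_lt hyx (hlt x hx))), add_zero]
  have hr' := hmax ⟨g + single x0 a, hgood⟩ hr
  have h1 : co (g + single x0 a) x0 = a := by
    rw [co_add, hgx0 x0 le_rfl, co_single_same, zero_add]
  have h2 := hr' x0 (by show co (g + single x0 a) x0 ≠ 0; rw [h1]; exact ha) x0 le_rfl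
  have h3 : co g x0 = co (g + single x0 a) x0 := h2
  rw [h1, hgx0 x0 le_rfl] at h3
  exact ha h3.symm

theorem co_mul_lead {f g : MN G k} {φ γ : G}
    (hf : ∀ y, y < φ → co f y = 0) (hg : ∀ y, y < γ → co g y = 0) :
    co (f * g) (φ * γ) = co f φ * co g γ ∧ ∀ y, y < φ * γ → co (f * g) y = 0 := by
  constructor
  · rw [co_mul_eq_sum _ _ _ {φ}]
    · rw [Finset.sum_singleton, inv_mul_cancel_left]
    · intro s hs hs'
      rw [Finset.mem_singleton]
      by_contra hne
      rcases lt_or_gt_of_ne hne with h | h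
      · exact hs (hf s h)
      · apply hs'
        apply hg
        have := inv_anti' h (φ * γ)
        rwa [inv_mul_cancel_left] at this
  · intro y hy
    by_contra h
    obtain ⟨s, hs, hs'⟩ := co_mul_ne_zero h
    have h1 : φ ≤ s := by
      by_contra h2
      exact hs (hf s (not_le.1 h2))
    have h2 : γ ≤ s⁻¹ * y := by
      by_contra h2
      exact hs' (hg _ (not_le.1 h2))
    have h3 : φ * γ ≤ y := by
      have h4 : φ * γ ≤ s * γ := by
        rcases eq_or_lt_of_le h1 with h | h
        · rw [h]
        · exact (mul_lt_mul_left h γ).le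
      have h5 : s * γ ≤ s * (s⁻¹ * y) := by
        rcases eq_or_lt_of_le h2 with h | h
        · rw [← h]
        · exact (mul_lt_mul_right h s).le
      rw [mul_inv_cancel_left] at h5
      exact le_trans h4 h5
    exact absurd hy (not_lt.2 h3)

theorem single_mul_single (g h : G) (a b : k) :
    single g a * single h b = single (g * h) (a * b) := by
  apply ext'
  intro x
  rw [co_single_mul]
  by_cases hx : x = g * h
  · rw [hx, inv_mul_cancel_left, co_single_same, co_single_same]
  · rw [co_single_of_ne (g := g * h) (a * b) hx, co_single_of_ne b, mul_zero]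
    intro h2
    apply hx
    rw [← h2, mul_inv_cancel_left]

theorem single_ne_zero' (g : G) {a : k} (ha : a ≠ 0) : single g a ≠ 0 := by
  intro h
  apply ha
  rw [← co_single_same g a, h, co_zero]

instance instNontrivial : Nontrivial (MN G k) := ⟨1, 0, single_ne_zero' 1 one_ne_zero⟩

noncomputable instance instDivisionRing : DivisionRing (MN G k) :=
  DivisionRing.ofIsUnitOrEqZero (by
    intro f
    by_cases hf : f = 0
    · exact Or.inr hf
    left
    obtain ⟨g, hg⟩ := exists_right_inv hf
    have hg0 : g ≠ 0 := by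
      rintro rfl
      rw [mul_zero] at hg
      exact zero_ne_one hg
    obtain ⟨h, hh⟩ := exists_right_inv hg0
    have hfh : f = h := by
      calc f = f * (g * h) := by rw [hh, mul_one]
        _ = h := by rw [← mul_assoc, hg, one_mul]
    refine ⟨⟨f, g, hg, ?_⟩, rfl⟩
    rw [hfh, hh])

end div

section order

variable [DivisionRing k] [LinearOrder k] [IsStrictOrderedRing k]

noncomputable instance instLinearOrder : LinearOrder (MN G k) :=
  inferInstanceAs (LinearOrder (Lex (HahnSeries G k)))

theorem lt_iff' (f g : MN G k) :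
    f < g ↔ ∃ φ, (∀ y, y < φ → co f y = co g y) ∧ co f φ < co g φ := Iff.rfl

instance instOrderedAdd : IsOrderedAddMonoid (MN G k) :=
  inferInstanceAs (IsOrderedAddMonoid (Lex (HahnSeries G k)))

theorem pos_iff (f : MN G k) : 0 < f ↔ ∃ φ, (∀ y, y < φ → co f y = 0) ∧ 0 < co f φ := by
  rw [lt_iff']
  constructor
  · rintro ⟨φ, h1, h2⟩
    exact ⟨φ, fun y hy => (h1 y hy).symm, h2⟩
  · rintro ⟨φ, h1, h2⟩
    exact ⟨φ, fun y hy => (h1 y hy).symm, h2⟩

theorem single_pos (g : G) {a : k} (ha : 0 < a) : 0 < single g a := by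
  rw [pos_iff]
  refine ⟨g, fun y hy => co_single_of_ne a (ne_of_lt hy), ?_⟩
  rw [co_single_same]
  exact ha

instance instZeroLEOne : ZeroLEOneClass (MN G k) := ⟨(single_pos 1 zero_lt_one).le⟩

instance instStrictOrderedRing : IsStrictOrderedRing (MN G k) :=
  IsStrictOrderedRing.of_mul_pos (by
    intro f g hf hg
    rw [pos_iff] at hf hg ⊢
    obtain ⟨φ, h1, h2⟩ := hf
    obtain ⟨γ, h3, h4⟩ := hg
    obtain ⟨h5, h6⟩ := co_mul_lead h1 h3
    refine ⟨φ * γ, h6, ?_⟩
    rw [h5]
    exact mul_pos h2 h4)

/-- larger group elements give smaller monomials -/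
theorem single_lt_single {g h : G} (hgh : g < h) : single h (1 : k) < single g (1 : k) := by
  rw [lt_iff']
  refine ⟨g, ?_, ?_⟩
  · intro y hy
    rw [co_single_of_ne _ (ne_of_lt hy), co_single_of_ne _ (ne_of_lt (lt_trans hy hgh))]
  · rw [co_single_same, co_single_of_ne _ (ne_of_lt hgh)]
    exact zero_lt_one

end order

end MN

end Pool.Agent.H80R2
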