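import Pool.Agent.H80R2.MN.Group

/-!
# An ordered division ring which does not embed in one with square roots of positive elements
-/

set_option autoImplicit false

namespace Pool.Agent.H80R2

section obstruction

variable {L : Type} [DivisionRing L] [LinearOrder L] [IsStrictOrderedRing L]

theorem conj_lt {g : L} (hg : 0 < g) {a b : L} (h : a < b) : g * a * g⁻¹ < g * b * g⁻¹ := by
  have h1 : g * a < g * b := mul_lt_mul_of_pos_left h hg
  exact mul_lt_mul_of_pos_right h1 (inv_pos.2 hg)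

theorem conj_le {g : L} (hg : 0 < g) {a b : L} (h : a ≤ b) : g * a * g⁻¹ ≤ g * b * g⁻¹ := by
  rcases eq_or_lt_of_le h with h | h
  · rw [h]
  · exact (conj_lt hg h).le

theorem sqrt_comm {u v g : L} (hv : 0 < v) (hvv : v * v = u) (hg : 0 < g) (hug : u * g = g * u) :
    v * g = g * v := by
  have hg0 : g ≠ 0 := hg.ne'
  have hw : 0 < g * v * g⁻¹ := mul_pos (mul_pos hg hv) (inv_pos.2 hg)
  have hww : (g * v * g⁻¹) * (g * v * g⁻¹) = v * v := by
    calc (g * v * g⁻¹) * (g * v * g⁻¹) = g * v * (g⁻¹ * g) * v * g⁻¹ := by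
          simp only [mul_assoc]
      _ = g * (v * v) * g⁻¹ := by rw [inv_mul_cancel₀ hg0, mul_one, mul_assoc g v v]
      _ = v * v := by rw [hvv, ← hug, mul_assoc, mul_inv_cancel₀ hg0, mul_one]
  have heq : g * v * g⁻¹ = v := by
    rcases lt_trichotomy (g * v * g⁻¹) v with h | h | h
    · exact absurd hww (ne_of_lt (mul_lt_mul'' h h hw.le hw.le))
    · exact h
    · exact absurd hww.symm (ne_of_lt (mul_lt_mul'' h h hv.le hv.le))
  calc v * g = (g * v * g⁻¹) * g := by rw [heq]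
    _ = g * v := by rw [mul_assoc, inv_mul_cancel₀ hg0, mul_one]

/-- the obstruction -/
theorem no_sqrt {e u q r v : L} (hu : 0 < u) (hq : 0 < q) (hr : 0 < r)
    (hv : 0 < v) (hvv : v * v = u) (huq : u * q = q * u) (hur : u * r = r * u)
    (hqe : q * e = e * q)
    (h1 : r * (r * e * r⁻¹) * r⁻¹ < u * e * u⁻¹)
    (h2 : u * e * u⁻¹ < (q * r) * ((q * r) * e * (q * r)⁻¹) * (q * r)⁻¹) : False := by
  have hvq := sqrt_comm hv hvv hq huq
  have hvr := sqrt_comm hv hvv hr hur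
  have hv0 : v ≠ 0 := hv.ne'
  have hq0 : q ≠ 0 := hq.ne'
  have hr0 : r ≠ 0 := hr.ne'
  have hvqr : v * (q * r) = (q * r) * v := by
    rw [← mul_assoc, hvq, mul_assoc, hvr, mul_assoc]
  -- conjugation by commuting elements
  have hcomm : ∀ g x : L, g ≠ 0 → v * g = g * v →
      v * (g * x * g⁻¹) * v⁻¹ = g * (v * x * v⁻¹) * g⁻¹ := by
    intro g x hg hvg
    have hinv : g⁻¹ * v⁻¹ = v⁻¹ * g⁻¹ := by
      rw [← mul_inv_rev, ← mul_inv_rev, hvg]
    calc v * (g * x * g⁻¹) * v⁻¹ = (v * g) * x * (g⁻¹ * v⁻¹) := by simp only [mul_assoc]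
      _ = (g * v) * x * (v⁻¹ * g⁻¹) := by rw [hvg, hinv]
      _ = g * (v * x * v⁻¹) * g⁻¹ := by simp only [mul_assoc]
  have hvv' : ∀ x : L, v * (v * x * v⁻¹) * v⁻¹ = u * x * u⁻¹ := by
    intro x
    rw [← hvv, mul_inv_rev]
    simp only [mul_assoc]
  -- first claim
  have c1 : r * e * r⁻¹ < v * e * v⁻¹ := by
    by_contra h
    have h' := not_lt.1 h
    have h3 := conj_le hv h'
    rw [hvv', hcomm r e hr0 hvr] at h3
    have h4 := conj_le hr h'
    exact absurd (lt_of_lt_of_le h1 (le_trans h3 h4)) (lt_irrefl _)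
  -- second claim
  have c2 : v * e * v⁻¹ < (q * r) * e * (q * r)⁻¹ := by
    by_contra h
    have h' := not_lt.1 h
    have h3 := conj_le hv h'
    rw [hvv', hcomm (q * r) e (mul_ne_zero hq0 hr0) hvqr] at h3
    have h4 := conj_le (mul_pos hq hr) h'
    exact absurd (lt_of_lt_of_le h2 (le_trans h4 h3)) (lt_irrefl _)
  -- the conjugate commutes with `q`
  have c3 : q * (v * e * v⁻¹) * q⁻¹ = v * e * v⁻¹ := by
    rw [← hcomm q e hq0 hvq, hqe, mul_assoc e q, mul_inv_cancel₀ hq0, mul_one]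
  have c4 := conj_lt hq c1
  rw [c3] at c4
  have c5 : q * (r * e * r⁻¹) * q⁻¹ = (q * r) * e * (q * r)⁻¹ := by
    rw [mul_inv_rev]
    simp only [mul_assoc]
  rw [c5] at c4
  exact absurd (lt_trans c4 c2) (lt_irrefl _)

end obstruction

section elements

/-- an element of the acting group as an element of the big group -/
noncomputable def inj (x : Q2) : GG := ⟨0, x⟩

theorem inj_mul (x y : Q2) : inj (x * y) = inj x * inj y := by
  apply SD.ext
  · show (0 : PM Sg) = 0 + x • (0 : PM Sg)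
    rw [smul_zero, add_zero]
  · rfl

noncomputable def uQ : Q2 := ⟨(show ZT from (1 : ℤ)), 1⟩
noncomputable def qQ : Q2 := ⟨0, ⟨PM.of (Finsupp.single (show C0 from (0 : ℤ)) 1), 1⟩⟩
noncomputable def rQ : Q2 := ⟨0, ⟨0, Multiplicative.ofAdd 1⟩⟩

theorem uQ_comm (x : Q2) : uQ * x = x * uQ := by
  apply SD.ext
  · show (show ZT from (1 : ℤ)) + (1 : Q1) • x.a = x.a + x.g • (show ZT from (1 : ℤ))
    rw [one_smul]
    exact add_comm _ _
  · show (1 : Q1) * x.g = x.g * 1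
    rw [one_mul, mul_one]

/-- a basis element of the module part -/
noncomputable def ee (p : ℤ × ℤ) : GG :=
  ⟨PM.of (Finsupp.single (show Sg from (toLex p : ℤ ×ₗ ℤ)) 1), 1⟩

theorem conj_ee (x : Q2) (p : ℤ × ℤ) : inj x * ee p * (inj x)⁻¹ = ee (act x p) := by
  show (⟨0, x⟩ : GG) * ⟨_, 1⟩ * (⟨0, x⟩ : GG)⁻¹ = _
  rw [SD.conj, PM.smul_single]
  rfl

theorem act_r (p : ℤ × ℤ) : act rQ p = (p.1 + 1, p.2) := by
  unfold act
  have h0 : par (PM.fn rQ.g.a) = fun _ => 0 := by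
    funext i
    exact par_zero i
  rw [h0]
  ext
  · show p.1 + (1 : ℤ) + 2 * (0 : ℤ) = p.1 + 1
    omega
  · show p.2 + 2 * (0 : ℤ) + (0 : ℤ) = p.2
    omega

theorem act_u (p : ℤ × ℤ) : act uQ p = (p.1 + 2, p.2 + 1) := by
  unfold act
  have h0 : par (PM.fn uQ.g.a) = fun _ => 0 := by
    funext i
    exact par_zero i
  rw [h0]
  ext
  · show p.1 + (0 : ℤ) + 2 * (1 : ℤ) = p.1 + 2
    omega
  · show p.2 + 2 * (0 : ℤ) + (1 : ℤ) = p.2 + 1
    omega

theorem act_q (p : ℤ × ℤ) : act qQ p = (p.1, p.2 + 2 * (if Odd p.1 then 1 else 0)) := by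
  unfold act
  have h0 : par (PM.fn qQ.g.a) = fun i => if Odd (i - 0) then 1 else 0 := by
    funext i
    exact par_single 0 1 i
  rw [h0]
  ext
  · show p.1 + (0 : ℤ) + 2 * (0 : ℤ) = p.1
    omega
  · show p.2 + 2 * (if Odd (p.1 + 0 - 0) then 1 else 0) + (0 : ℤ) =
      p.2 + 2 * (if Odd p.1 then 1 else 0)
    rw [add_zero, sub_zero, add_zero]

theorem ee_lt {p q : ℤ × ℤ} (h : (toLex p : ℤ ×ₗ ℤ) < toLex q) : ee q < ee p := by
  rw [SD.lt_iff]
  right
  exact ⟨rfl, PM.single_lt (show (show Sg from (toLex p : ℤ ×ₗ ℤ)) < (show Sg from toLex q) from h)⟩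

end elements

/-- the ordered division ring -/
abbrev DD : Type := MN GG ℚ

/-- monomials -/
noncomputable def mo (g : GG) : DD := MN.single g 1

theorem mo_mul (g h : GG) : mo (g * h) = mo g * mo h := by
  unfold mo
  rw [MN.single_mul_single, one_mul]

theorem mo_one : mo 1 = 1 := rfl

theorem mo_pos (g : GG) : 0 < mo g := MN.single_pos g one_pos

theorem mo_inv (g : GG) : mo g⁻¹ = (mo g)⁻¹ := by
  apply eq_inv_of_mul_eq_one_left
  rw [← mo_mul, inv_mul_cancel, mo_one]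

theorem mo_conj (x : Q2) (p : ℤ × ℤ) :
    mo (inj x) * mo (ee p) * (mo (inj x))⁻¹ = mo (ee (act x p)) := by
  rw [← mo_inv, ← mo_mul, ← mo_mul, conj_ee]

theorem mo_lt {p q : ℤ × ℤ} (h : (toLex p : ℤ ×ₗ ℤ) < toLex q) : mo (ee p) < mo (ee q) :=
  MN.single_lt_single (ee_lt h)

theorem not_divisible (L : Type) [DivisionRing L] [LinearOrder L] [IsStrictOrderedRing L]
    (f : DD →+* L) (hf : StrictMono f) : ¬ ∃ v : L, 0 < v ∧ v * v = f (mo (inj uQ)) := by
  rintro ⟨v, hv, hvv⟩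
  have hpos : ∀ g, 0 < f (mo g) := by
    intro g
    have := hf (mo_pos g)
    rwa [map_zero] at this
  have hconj : ∀ (x : Q2) (p : ℤ × ℤ),
      f (mo (inj x)) * f (mo (ee p)) * (f (mo (inj x)))⁻¹ = f (mo (ee (act x p))) := by
    intro x p
    rw [← map_inv₀, ← map_mul, ← map_mul, mo_conj]
  have hmul : f (mo (inj qQ)) * f (mo (inj rQ)) = f (mo (inj (qQ * rQ))) := by
    rw [inj_mul, mo_mul, map_mul]
  refine no_sqrt (e := f (mo (ee (0, 0)))) (u := f (mo (inj uQ))) (q := f (mo (inj qQ)))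
    (r := f (mo (inj rQ))) (v := v) (hpos _) (hpos _) (hpos _) hv hvv ?_ ?_ ?_ ?_ ?_
  · rw [← map_mul, ← map_mul, ← mo_mul, ← mo_mul, ← inj_mul, ← inj_mul, uQ_comm]
  · rw [← map_mul, ← map_mul, ← mo_mul, ← mo_mul, ← inj_mul, ← inj_mul, uQ_comm]
  · have h := hconj qQ (0, 0)
    have h2 : act qQ (0, 0) = (0, 0) := by
      rw [act_q]
      simp
    rw [h2] at h
    have hq0 : f (mo (inj qQ)) ≠ 0 := (hpos _).ne'
    calc f (mo (inj qQ)) * f (mo (ee (0, 0)))
        = (f (mo (inj qQ)) * f (mo (ee (0, 0))) * (f (mo (inj qQ)))⁻¹) * f (mo (inj qQ)) := by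
          rw [mul_assoc _ _⁻¹, inv_mul_cancel₀ hq0, mul_one]
      _ = f (mo (ee (0, 0))) * f (mo (inj qQ)) := by rw [h]
  · rw [hconj, hconj, hconj, act_r, act_r, act_u]
    apply hf
    apply mo_lt
    rw [Prod.Lex.toLex_lt_toLex]
    simp
  · rw [hmul, hconj, hconj, hconj, act_mul, act_mul, act_r, act_q, act_r, act_q, act_u]
    apply hf
    apply mo_lt
    rw [Prod.Lex.toLex_lt_toLex]
    right
    norm_num

end Pool.Agent.H80R2
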