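import Pool.Agent.H80R2.MN.Div

/-!
# An ordered group
-/

set_option autoImplicit false

namespace Pool.Agent.H80R2

universe u v

/-- order preserving action on an additive group -/
class OrdAct (Q : Type u) (A : Type v) [Group Q] [AddCommGroup A] [LinearOrder A]
    [DistribMulAction Q A] : Prop where
  smul_lt : ∀ (g : Q) {a b : A}, a < b → g • a < g • b

/-- semidirect product -/
@[ext] structure SD (A : Type u) (Q : Type v) where
  /-- the normal part -/
  a : A
  /-- the quotient part -/
  g : Q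

namespace SD

variable {A : Type u} {Q : Type v} [AddCommGroup A] [LinearOrder A] [IsOrderedAddMonoid A]
  [Group Q] [LinearOrder Q] [MulLeftStrictMono Q] [MulRightStrictMono Q]
  [DistribMulAction Q A] [OrdAct Q A]

instance : Mul (SD A Q) := ⟨fun x y => ⟨x.a + x.g • y.a, x.g * y.g⟩⟩
instance : One (SD A Q) := ⟨⟨0, 1⟩⟩
instance : Inv (SD A Q) := ⟨fun x => ⟨-(x.g⁻¹ • x.a), x.g⁻¹⟩⟩

omit [LinearOrder A] [IsOrderedAddMonoid A] [LinearOrder Q] [MulLeftStrictMono Q]
  [MulRightStrictMono Q] [OrdAct Q A] in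
@[simp] theorem mul_a (x y : SD A Q) : (x * y).a = x.a + x.g • y.a := rfl
omit [LinearOrder A] [IsOrderedAddMonoid A] [LinearOrder Q] [MulLeftStrictMono Q]
  [MulRightStrictMono Q] [OrdAct Q A] in
@[simp] theorem mul_g (x y : SD A Q) : (x * y).g = x.g * y.g := rfl
omit [LinearOrder A] [IsOrderedAddMonoid A] [LinearOrder Q] [MulLeftStrictMono Q]
  [MulRightStrictMono Q] [DistribMulAction Q A] [OrdAct Q A] in
@[simp] theorem one_a : (1 : SD A Q).a = 0 := rfl
omit [LinearOrder A] [IsOrderedAddMonoid A] [LinearOrder Q] [MulLeftStrictMono Q]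
  [MulRightStrictMono Q] [DistribMulAction Q A] [OrdAct Q A] in
@[simp] theorem one_g : (1 : SD A Q).g = 1 := rfl
omit [LinearOrder A] [IsOrderedAddMonoid A] [LinearOrder Q] [MulLeftStrictMono Q]
  [MulRightStrictMono Q] [OrdAct Q A] in
@[simp] theorem inv_a (x : SD A Q) : (x⁻¹).a = -(x.g⁻¹ • x.a) := rfl
omit [LinearOrder A] [IsOrderedAddMonoid A] [LinearOrder Q] [MulLeftStrictMono Q]
  [MulRightStrictMono Q] [OrdAct Q A] in
@[simp] theorem inv_g (x : SD A Q) : (x⁻¹).g = x.g⁻¹ := rfl

instance : Group (SD A Q) where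
  mul_assoc x y z := by
    ext
    · simp only [mul_a, mul_g, smul_add, mul_smul, add_assoc]
    · simp only [mul_g, mul_assoc]
  one_mul x := by
    ext
    · simp
    · simp
  mul_one x := by
    ext
    · simp
    · simp
  inv_mul_cancel x := by
    ext
    · simp
    · simp

instance : LinearOrder (SD A Q) :=
  LinearOrder.lift' (fun x => (toLex (x.g, x.a) : Q ×ₗ A)) (by
    intro x y h
    have h1 : (x.g, x.a) = (y.g, y.a) := toLex.injective h
    rw [Prod.mk.injEq] at h1
    exact SD.ext h1.2 h1.1)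

omit [IsOrderedAddMonoid A] [MulLeftStrictMono Q] [MulRightStrictMono Q] [DistribMulAction Q A]
  [OrdAct Q A] [AddCommGroup A] [Group Q] in
theorem lt_iff (x y : SD A Q) : x < y ↔ x.g < y.g ∨ (x.g = y.g ∧ x.a < y.a) := by
  show (toLex (x.g, x.a) : Q ×ₗ A) < toLex (y.g, y.a) ↔ _
  rw [Prod.Lex.toLex_lt_toLex]

instance : MulLeftStrictMono (SD A Q) := ⟨by
  intro x y z h
  rw [lt_iff] at h
  show x * y < x * z
  rw [lt_iff]
  rcases h with h | ⟨h1, h2⟩
  · left
    exact mul_lt_mul_right h x.g
  · right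
    refine ⟨?_, ?_⟩
    · rw [mul_g, mul_g, h1]
    · rw [mul_a, mul_a]
      have := OrdAct.smul_lt x.g h2
      gcongr⟩

instance : MulRightStrictMono (SD A Q) := ⟨by
  intro x y z h
  rw [lt_iff] at h
  show y * x < z * x
  rw [lt_iff]
  rcases h with h | ⟨h1, h2⟩
  · left
    exact mul_lt_mul_left h x.g
  · right
    refine ⟨?_, ?_⟩
    · rw [mul_g, mul_g, h1]
    · rw [mul_a, mul_a, h1]
      gcongr⟩

omit [LinearOrder A] [IsOrderedAddMonoid A] [LinearOrder Q] [MulLeftStrictMono Q]
  [MulRightStrictMono Q] [OrdAct Q A] in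
theorem conj (g : Q) (a : A) :
    (⟨0, g⟩ : SD A Q) * ⟨a, 1⟩ * (⟨0, g⟩ : SD A Q)⁻¹ = ⟨g • a, 1⟩ := by
  ext <;> simp

end SD

/-- order preserving action on a chain -/
class OrdPerm (Q : Type u) (α : Type v) [Group Q] [LinearOrder α] [MulAction Q α] : Prop where
  smul_lt : ∀ (g : Q) {a b : α}, a < b → g • a < g • b

/-- finitely supported integer functions on a chain, ordered lexicographically -/
def PM (α : Type u) : Type u := Lex (α →₀ ℤ)

namespace PM

variable {α : Type u} [LinearOrder α]

noncomputable instance : AddCommGroup (PM α) := inferInstanceAs (AddCommGroup (Lex (α →₀ ℤ)))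
noncomputable instance : LinearOrder (PM α) := inferInstanceAs (LinearOrder (Lex (α →₀ ℤ)))
instance : IsOrderedAddMonoid (PM α) := inferInstanceAs (IsOrderedAddMonoid (Lex (α →₀ ℤ)))

/-- the underlying function -/
def fn (f : PM α) : α →₀ ℤ := ofLex f

/-- from a finitely supported function -/
def of (f : α →₀ ℤ) : PM α := toLex f

theorem lt_iff (f h : PM α) : f < h ↔ ∃ i, (∀ j, j < i → fn f j = fn h j) ∧ fn f i < fn h i :=
  Finsupp.Lex.lt_iff

variable {Q : Type v} [Group Q] [MulAction Q α] [OrdPerm Q α]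

noncomputable instance : DistribMulAction Q (PM α) where
  smul g f := of (Finsupp.mapDomain (fun x => g • x) (fn f))
  one_smul f := by
    show of (Finsupp.mapDomain (fun x => (1 : Q) • x) (fn f)) = f
    have : (fun x : α => (1 : Q) • x) = id := by funext x; exact one_smul Q x
    rw [this, Finsupp.mapDomain_id]
    rfl
  mul_smul g h f := by
    show of (Finsupp.mapDomain (fun x => (g * h) • x) (fn f)) =
      of (Finsupp.mapDomain (fun x => g • x) (Finsupp.mapDomain (fun x => h • x) (fn f)))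
    rw [← Finsupp.mapDomain_comp]
    congr 2
    funext x
    exact mul_smul g h x
  smul_zero g := by
    show of (Finsupp.mapDomain (fun x => g • x) 0) = of 0
    rw [Finsupp.mapDomain_zero]
  smul_add g f h := by
    show of (Finsupp.mapDomain (fun x => g • x) (fn f + fn h)) = _
    rw [Finsupp.mapDomain_add]
    rfl

omit [OrdPerm Q α] in
theorem fn_smul (g : Q) (f : PM α) (x : α) : fn (g • f) (g • x) = fn f x := by
  show Finsupp.mapDomain (fun x => g • x) (fn f) (g • x) = fn f x
  exact Finsupp.mapDomain_apply (MulAction.injective g) (fn f) x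

omit [OrdPerm Q α] in
theorem smul_single (g : Q) (x : α) (n : ℤ) :
    g • (of (Finsupp.single x n) : PM α) = of (Finsupp.single (g • x) n) := by
  show of (Finsupp.mapDomain (fun x => g • x) (Finsupp.single x n)) = _
  rw [Finsupp.mapDomain_single]

instance : OrdAct Q (PM α) := ⟨by
  intro g f h hfh
  rw [lt_iff] at hfh ⊢
  obtain ⟨i, h1, h2⟩ := hfh
  refine ⟨g • i, ?_, ?_⟩
  · intro j hj
    have h3 : g⁻¹ • j < i := by
      have := OrdPerm.smul_lt g⁻¹ hj
      rwa [inv_smul_smul] at this
    have h4 := h1 _ h3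
    rw [← fn_smul g f, ← fn_smul g h, smul_inv_smul] at h4
    exact h4
  · rw [fn_smul, fn_smul]
    exact h2⟩

theorem single_lt {x y : α} (h : x < y) :
    (of (Finsupp.single y 1) : PM α) < of (Finsupp.single x 1) := by
  rw [lt_iff]
  refine ⟨x, ?_, ?_⟩
  · intro j hj
    show (Finsupp.single y (1 : ℤ)) j = (Finsupp.single x (1 : ℤ)) j
    rw [Finsupp.single_eq_of_ne (ne_of_lt (lt_trans hj h)), Finsupp.single_eq_of_ne (ne_of_lt hj)]
  · show (Finsupp.single y (1 : ℤ)) x < (Finsupp.single x (1 : ℤ)) x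
    rw [Finsupp.single_eq_of_ne (ne_of_lt h), Finsupp.single_eq_same]
    exact one_pos

end PM

/-! ### The specific group -/

/-- the infinite cyclic group -/
abbrev Q0 : Type := Multiplicative ℤ

/-- the integers as a chain with translations -/
def C0 : Type := ℤ

noncomputable instance : LinearOrder C0 := inferInstanceAs (LinearOrder ℤ)

instance : MulAction Q0 C0 where
  smul m n := ((show ℤ from n) + Multiplicative.toAdd m : ℤ)
  one_smul n := by
    show ((show ℤ from n) + 0 : ℤ) = n
    exact add_zero _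
  mul_smul m m' n := by
    show ((show ℤ from n) + (Multiplicative.toAdd m + Multiplicative.toAdd m') : ℤ) =
      ((show ℤ from n) + Multiplicative.toAdd m' + Multiplicative.toAdd m : ℤ)
    ring

instance : OrdPerm Q0 C0 := ⟨by
  intro g a b h
  show ((show ℤ from a) + Multiplicative.toAdd g : ℤ) < ((show ℤ from b) + Multiplicative.toAdd g : ℤ)
  have h' : (show ℤ from a) < (show ℤ from b) := h
  omega⟩

/-- the wreath product of two infinite cyclic groups -/
abbrev Q1 : Type := SD (PM C0) Q0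

/-- the integers with trivial action -/
def ZT : Type := ℤ

noncomputable instance : AddCommGroup ZT := inferInstanceAs (AddCommGroup ℤ)
noncomputable instance : LinearOrder ZT := inferInstanceAs (LinearOrder ℤ)
instance : IsOrderedAddMonoid ZT := inferInstanceAs (IsOrderedAddMonoid ℤ)

noncomputable instance : DistribMulAction Q1 ZT where
  smul _ n := n
  one_smul _ := rfl
  mul_smul _ _ _ := rfl
  smul_zero _ := rfl
  smul_add _ _ _ := rfl

instance : OrdAct Q1 ZT := ⟨fun _ _ _ h => h⟩

/-- `ℤ × (ℤ ≀ ℤ)` -/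
abbrev Q2 : Type := SD ZT Q1

/-- the chain `ℤ × ℤ` -/
def Sg : Type := ℤ ×ₗ ℤ

noncomputable instance : LinearOrder Sg := inferInstanceAs (LinearOrder (ℤ ×ₗ ℤ))

/-- sum of the values of `w` at the integers `n` with `i - n` odd -/
noncomputable def par (w : C0 →₀ ℤ) (i : ℤ) : ℤ :=
  w.sum (fun n c => if Odd (i - (show ℤ from n)) then c else 0)

theorem par_add (w w' : C0 →₀ ℤ) (i : ℤ) : par (w + w') i = par w i + par w' i := by
  unfold par
  rw [Finsupp.sum_add_index']
  · intro a
    split_ifs <;> rfl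
  · intro a b c
    split_ifs <;> simp

theorem par_zero (i : ℤ) : par 0 i = 0 := Finsupp.sum_zero_index

theorem par_even (w : C0 →₀ ℤ) (i k : ℤ) : par w (i + 2 * k) = par w i := by
  unfold par
  apply Finsupp.sum_congr
  intro n _
  have : Odd (i + 2 * k - (show ℤ from n)) ↔ Odd (i - (show ℤ from n)) := by
    rw [Int.odd_iff, Int.odd_iff]
    omega
  simp only [this]

theorem par_shift (w : PM C0) (m : Q0) (i : ℤ) :
    par (PM.fn (m • w)) (i + Multiplicative.toAdd m) = par (PM.fn w) i := by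
  unfold par
  show (Finsupp.mapDomain (fun x => m • x) (PM.fn w)).sum _ = _
  rw [Finsupp.sum_mapDomain_index_inj (MulAction.injective m)]
  apply Finsupp.sum_congr
  intro n _
  have : (i + Multiplicative.toAdd m - (show ℤ from (m • n : C0))) = i - (show ℤ from n) := by
    show i + Multiplicative.toAdd m - ((show ℤ from n) + Multiplicative.toAdd m : ℤ) = _
    ring
  rw [this]

theorem par_single (n : ℤ) (c i : ℤ) :
    par (Finsupp.single (show C0 from n) c) i = if Odd (i - n) then c else 0 := by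
  unfold par
  rw [Finsupp.sum_single_index]
  exact ite_self _

/-- the action on the chain -/
noncomputable def act (x : Q2) (p : ℤ × ℤ) : ℤ × ℤ :=
  (p.1 + Multiplicative.toAdd x.g.g + 2 * (show ℤ from x.a),
    p.2 + 2 * par (PM.fn x.g.a) (p.1 + Multiplicative.toAdd x.g.g) + (show ℤ from x.a))

theorem act_mul (x y : Q2) (p : ℤ × ℤ) : act (x * y) p = act x (act y p) := by
  unfold act
  have h1 : (show ℤ from (x * y).a) = (show ℤ from x.a) + (show ℤ from y.a) := rfl
  have h2 : Multiplicative.toAdd (x * y).g.g =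
      Multiplicative.toAdd x.g.g + Multiplicative.toAdd y.g.g := rfl
  have h3 : PM.fn (x * y).g.a = PM.fn x.g.a + PM.fn (x.g.g • y.g.a) := rfl
  ext
  · show p.1 + Multiplicative.toAdd (x * y).g.g + 2 * (show ℤ from (x * y).a) = _
    rw [h1, h2]
    show _ = p.1 + Multiplicative.toAdd y.g.g + 2 * (show ℤ from y.a) +
      Multiplicative.toAdd x.g.g + 2 * (show ℤ from x.a)
    ring
  · show p.2 + 2 * par (PM.fn (x * y).g.a) (p.1 + Multiplicative.toAdd (x * y).g.g) +
      (show ℤ from (x * y).a) =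
      (p.2 + 2 * par (PM.fn y.g.a) (p.1 + Multiplicative.toAdd y.g.g) + (show ℤ from y.a)) +
        2 * par (PM.fn x.g.a) (p.1 + Multiplicative.toAdd y.g.g + 2 * (show ℤ from y.a) +
        Multiplicative.toAdd x.g.g) + (show ℤ from x.a)
    rw [h1, h2, h3, par_add]
    have h4 : p.1 + Multiplicative.toAdd y.g.g + 2 * (show ℤ from y.a) +
        Multiplicative.toAdd x.g.g = (p.1 + (Multiplicative.toAdd x.g.g +
        Multiplicative.toAdd y.g.g)) + 2 * (show ℤ from y.a) := by ring
    have h5 : p.1 + (Multiplicative.toAdd x.g.g + Multiplicative.toAdd y.g.g) =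
        (p.1 + Multiplicative.toAdd y.g.g) + Multiplicative.toAdd x.g.g := by ring
    rw [h4, par_even]
    conv_lhs => rw [h5]
    rw [par_shift, ← h5]
    ring

noncomputable instance : MulAction Q2 Sg where
  smul x p := toLex (act x (ofLex (show ℤ ×ₗ ℤ from p)))
  one_smul p := by
    show toLex (act 1 (ofLex (show ℤ ×ₗ ℤ from p))) = p
    have key : ∀ p' : ℤ × ℤ, act 1 p' = p' := by
      intro p'
      unfold act
      have h0 : par (PM.fn (1 : Q2).g.a) = fun _ => 0 := by
        funext i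
        exact par_zero i
      rw [h0]
      ext
      · show p'.1 + (0 : ℤ) + 2 * (0 : ℤ) = p'.1
        omega
      · show p'.2 + 2 * (0 : ℤ) + (0 : ℤ) = p'.2
        omega
    rw [key]
    rfl
  mul_smul x y p := by
    show toLex (act (x * y) _) = toLex (act x (act y _))
    rw [act_mul]

instance : OrdPerm Q2 Sg := ⟨by
  intro g a b h
  have h' : (show ℤ ×ₗ ℤ from a) < (show ℤ ×ₗ ℤ from b) := h
  rw [Prod.Lex.lt_iff] at h'
  show (toLex (act g (ofLex (show ℤ ×ₗ ℤ from a))) : ℤ ×ₗ ℤ) <
    toLex (act g (ofLex (show ℤ ×ₗ ℤ from b)))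
  rw [Prod.Lex.toLex_lt_toLex]
  unfold act
  rcases h' with h1 | ⟨h1, h2⟩
  · left
    show (ofLex (show ℤ ×ₗ ℤ from a)).1 + _ + _ < (ofLex (show ℤ ×ₗ ℤ from b)).1 + _ + _
    omega
  · right
    refine ⟨?_, ?_⟩
    · show (ofLex (show ℤ ×ₗ ℤ from a)).1 + _ + _ = (ofLex (show ℤ ×ₗ ℤ from b)).1 + _ + _
      rw [h1]
    · show (ofLex (show ℤ ×ₗ ℤ from a)).2 + _ + _ < (ofLex (show ℤ ×ₗ ℤ from b)).2 + _ + _
      rw [h1]
      omega⟩

/-- the ordered group -/
abbrev GG : Type := SD (PM Sg) Q2

end Pool.Agent.H80R2
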