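import Mathlib

/-!
# Malcev-Neumann series over a (not necessarily commutative) ordered group

`MN G k` is the additive group of Hahn series on `G` with the product
`(f g)(x) = ∑ f(s) g(s⁻¹ x)`. It is a division ring when `k` is a division ring, and a linearly
ordered division ring when `k` is a linearly ordered division ring.
-/

set_option autoImplicit false
set_option linter.unusedSectionVars false

namespace Pool.Agent.H80R2

universe u v

section wf

variable {G : Type u} [Group G] [LinearOrder G] [MulLeftStrictMono G] [MulRightStrictMono G]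

theorem inv_anti' {s t : G} (h : s < t) (x : G) : t⁻¹ * x < s⁻¹ * x := by
  have h1 : t⁻¹ < s⁻¹ := by
    have h2 := mul_lt_mul_right h t⁻¹
    rw [inv_mul_cancel] at h2
    have h3 := mul_lt_mul_left h2 s⁻¹
    rwa [one_mul, mul_assoc, mul_inv_cancel, mul_one] at h3
  exact mul_lt_mul_left h1 x

theorem finite_fiber {S T : Set G} (hS : S.IsWF) (hT : T.IsWF) (x : G) :
    {s | s ∈ S ∧ s⁻¹ * x ∈ T}.Finite := by
  by_contra hinf
  let a := Set.Infinite.natEmbedding _ hinf
  obtain ⟨g, hg⟩ := hS.isPWO.exists_monotone_subseq (f := fun n => (a n : G)) (fun n => (a n).2.1)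
  have hmono : StrictMono ((fun n => (a n : G)) ∘ g) := by
    apply hg.strictMono_of_injective
    intro m n hmn
    exact g.injective (a.injective (Subtype.ext hmn))
  refine (Set.isWF_iff_no_descending_seq.1 hT) (fun n => (a (g n) : G)⁻¹ * x) ?_ ?_
  · intro m n hmn
    exact inv_anti' (hmono hmn) x
  · intro n
    exact (a (g n)).2.2

theorem wf_mul {S T : Set G} (hS : S.IsWF) (hT : T.IsWF) :
    (Set.image2 (· * ·) S T).IsWF := by
  have h1 : (S ×ˢ T).IsPWO := hS.isPWO.prod hT.isPWO
  have h2 : Monotone (fun p : G × G => p.1 * p.2) := by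
    rintro ⟨a, b⟩ ⟨c, d⟩ ⟨h, h'⟩
    have h1 : a * b ≤ c * b := by
      rcases eq_or_lt_of_le (show a ≤ c from h) with h | h
      · rw [h]
      · exact (mul_lt_mul_left h b).le
    have h2 : c * b ≤ c * d := by
      rcases eq_or_lt_of_le (show b ≤ d from h') with h | h
      · rw [h]
      · exact (mul_lt_mul_right h c).le
    exact le_trans h1 h2
  have h3 := h1.image_of_monotone h2
  rw [Set.image_prod] at h3
  exact h3.isWF

end wf

/-- Malcev-Neumann series -/
def MN (G : Type u) (k : Type v) [PartialOrder G] [Zero k] : Type (max u v) :=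
  Lex (HahnSeries G k)

namespace MN

variable {G : Type u} [Group G] [LinearOrder G] [MulLeftStrictMono G] [MulRightStrictMono G]
variable {k : Type v}

section basic

variable [Ring k]

instance : AddCommGroup (MN G k) := inferInstanceAs (AddCommGroup (Lex (HahnSeries G k)))

/-- coefficients -/
def co (f : MN G k) (x : G) : k := (ofLex f : HahnSeries G k).coeff x

theorem ext' {f g : MN G k} (h : ∀ x, co f x = co g x) : f = g := by
  have : (ofLex f : HahnSeries G k) = ofLex g := HahnSeries.ext (funext h)
  exact this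

theorem wf (f : MN G k) : (Function.support (co f)).IsWF :=
  (ofLex f : HahnSeries G k).isWF_support

/-- constructor -/
def mk (c : G → k) (h : (Function.support c).IsWF) : MN G k :=
  toLex (HahnSeries.mk c h.isPWO)

@[simp] theorem co_mk (c : G → k) (h : (Function.support c).IsWF) (x : G) : co (mk c h) x = c x :=
  rfl

@[simp] theorem co_zero (x : G) : co (0 : MN G k) x = 0 := rfl

@[simp] theorem co_add (f g : MN G k) (x : G) : co (f + g) x = co f x + co g x := rfl

@[simp] theorem co_neg (f : MN G k) (x : G) : co (-f) x = - co f x := rfl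

@[simp] theorem co_sub (f g : MN G k) (x : G) : co (f - g) x = co f x - co g x := rfl

/-- the coefficient function of the product -/
noncomputable def mulCo (f g : MN G k) (x : G) : k := ∑ᶠ s : G, co f s * co g (s⁻¹ * x)

theorem fiber (f g : MN G k) (x : G) : {s | co f s ≠ 0 ∧ co g (s⁻¹ * x) ≠ 0}.Finite :=
  finite_fiber (wf f) (wf g) x

theorem mulCo_eq_sum (f g : MN G k) (x : G) (A : Finset G)
    (hA : ∀ s, co f s ≠ 0 → co g (s⁻¹ * x) ≠ 0 → s ∈ A) :
    mulCo f g x = ∑ s ∈ A, co f s * co g (s⁻¹ * x) := by
  apply finsum_eq_sum_of_support_subset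
  intro s hs
  rw [Function.mem_support] at hs
  apply hA s
  · intro h; apply hs; rw [h, zero_mul]
  · intro h; apply hs; rw [h, mul_zero]

theorem exists_term {ι : Type*} {A : Type*} [AddCommMonoid A] {F : ι → A}
    (h : ∑ᶠ s : ι, F s ≠ 0) : ∃ s, F s ≠ 0 := by
  by_contra hcon
  push Not at hcon
  exact h (finsum_eq_zero_of_forall_eq_zero hcon)

theorem mulCo_support (f g : MN G k) :
    Function.support (mulCo f g) ⊆
      Set.image2 (· * ·) (Function.support (co f)) (Function.support (co g)) := by
  intro x hx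
  rw [Function.mem_support] at hx
  obtain ⟨s, hs⟩ := exists_term hx
  refine ⟨s, ?_, s⁻¹ * x, ?_, ?_⟩
  · intro h; apply hs; rw [h, zero_mul]
  · intro h; apply hs; rw [h, mul_zero]
  · simp

noncomputable instance : Mul (MN G k) :=
  ⟨fun f g => mk (mulCo f g) ((wf_mul (wf f) (wf g)).mono (mulCo_support f g))⟩

theorem co_mul (f g : MN G k) (x : G) : co (f * g) x = ∑ᶠ s : G, co f s * co g (s⁻¹ * x) := rfl

theorem co_mul_eq_sum (f g : MN G k) (x : G) (A : Finset G)
    (hA : ∀ s, co f s ≠ 0 → co g (s⁻¹ * x) ≠ 0 → s ∈ A) :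
    co (f * g) x = ∑ s ∈ A, co f s * co g (s⁻¹ * x) := mulCo_eq_sum f g x A hA

theorem co_mul_ne_zero {f g : MN G k} {x : G} (h : co (f * g) x ≠ 0) :
    ∃ s, co f s ≠ 0 ∧ co g (s⁻¹ * x) ≠ 0 := by
  obtain ⟨s, hs⟩ := exists_term h
  refine ⟨s, ?_, ?_⟩
  · intro h; apply hs; rw [h, zero_mul]
  · intro h; apply hs; rw [h, mul_zero]

/-- monomials -/
noncomputable def single (g : G) (a : k) : MN G k := toLex (HahnSeries.single g a)

theorem co_single_same (g : G) (a : k) : co (single g a) g = a := HahnSeries.coeff_single_same g a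

theorem co_single_of_ne {g x : G} (a : k) (h : x ≠ g) : co (single g a) x = 0 :=
  HahnSeries.coeff_single_of_ne h

theorem co_single_mul (g : G) (a : k) (f : MN G k) (x : G) :
    co (single g a * f) x = a * co f (g⁻¹ * x) := by
  rw [co_mul_eq_sum _ _ _ {g}]
  · rw [Finset.sum_singleton, co_single_same]
  · intro s hs _
    rw [Finset.mem_singleton]
    by_contra h
    exact hs (co_single_of_ne a h)

theorem co_mul_single (g : G) (a : k) (f : MN G k) (x : G) :
    co (f * single g a) x = co f (x * g⁻¹) * a := by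
  rw [co_mul_eq_sum _ _ _ {x * g⁻¹}]
  · rw [Finset.sum_singleton]
    have : (x * g⁻¹)⁻¹ * x = g := by group
    rw [this, co_single_same]
  · intro s _ hs
    rw [Finset.mem_singleton]
    by_contra h
    apply hs
    apply co_single_of_ne
    intro h2
    apply h
    rw [← h2]
    group

noncomputable instance : One (MN G k) := ⟨single 1 1⟩

theorem one_def : (1 : MN G k) = single 1 1 := rfl

theorem mul_assoc' (f g h : MN G k) : f * g * h = f * (g * h) := by
  classical
  apply ext'
  intro x
  -- first coordinates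
  have hA : {s | co f s ≠ 0 ∧ s⁻¹ * x ∈
      Set.image2 (· * ·) (Function.support (co g)) (Function.support (co h))}.Finite :=
    finite_fiber (wf f) (wf_mul (wf g) (wf h)) x
  have hB : {s | s ∈ Set.image2 (· * ·) (Function.support (co f)) (Function.support (co g)) ∧
      s⁻¹ * x ∈ Function.support (co h)}.Finite :=
    finite_fiber (wf_mul (wf f) (wf g)) (wf h) x
  have h1 : co (f * g * h) x =
      ∑ t ∈ hB.toFinset, ∑ s ∈ hA.toFinset, co f s * co g (s⁻¹ * t) * co h (t⁻¹ * x) := by
    rw [co_mul_eq_sum (f * g) h x hB.toFinset]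
    · apply Finset.sum_congr rfl
      intro t _
      by_cases ht : co h (t⁻¹ * x) = 0
      · rw [ht, mul_zero]
        symm
        apply Finset.sum_eq_zero
        intro s _
        rw [mul_zero]
      · rw [co_mul_eq_sum f g t hA.toFinset, Finset.sum_mul]
        intro s hs hs'
        rw [Set.Finite.mem_toFinset]
        refine ⟨hs, s⁻¹ * t, hs', t⁻¹ * x, ht, ?_⟩
        simp [mul_assoc]
    · intro t ht ht'
      rw [Set.Finite.mem_toFinset]
      refine ⟨?_, ht'⟩
      obtain ⟨s, hs, hs'⟩ := co_mul_ne_zero ht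
      exact ⟨s, hs, s⁻¹ * t, hs', by simp⟩
  have h2 : co (f * (g * h)) x =
      ∑ s ∈ hA.toFinset, ∑ t ∈ hB.toFinset, co f s * co g (s⁻¹ * t) * co h (t⁻¹ * x) := by
    rw [co_mul_eq_sum f (g * h) x hA.toFinset]
    · apply Finset.sum_congr rfl
      intro s _
      by_cases hs : co f s = 0
      · rw [hs, zero_mul]
        symm
        apply Finset.sum_eq_zero
        intro t _
        rw [zero_mul, zero_mul]
      · rw [co_mul_eq_sum g h (s⁻¹ * x) (hB.toFinset.image (fun t => s⁻¹ * t))]
        · rw [Finset.sum_image (by intro a _ b _ hab; exact mul_left_cancel hab), Finset.mul_sum]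
          apply Finset.sum_congr rfl
          intro t _
          have : (s⁻¹ * t)⁻¹ * (s⁻¹ * x) = t⁻¹ * x := by group
          rw [this, mul_assoc]
        · intro t' ht ht'
          rw [Finset.mem_image]
          refine ⟨s * t', ?_, by group⟩
          rw [Set.Finite.mem_toFinset]
          refine ⟨⟨s, hs, t', ht, rfl⟩, ?_⟩
          have : (s * t')⁻¹ * x = t'⁻¹ * (s⁻¹ * x) := by group
          rw [this]
          exact ht'
    · intro s hs hs'
      rw [Set.Finite.mem_toFinset]
      refine ⟨hs, ?_⟩
      obtain ⟨t, ht, ht'⟩ := co_mul_ne_zero hs'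
      exact ⟨t, ht, t⁻¹ * (s⁻¹ * x), ht', by simp⟩
  rw [h1, h2, Finset.sum_comm]

noncomputable instance instRing : Ring (MN G k) where
  __ := (inferInstance : AddCommGroup (MN G k))
  left_distrib f g h := by
    classical
    apply ext'
    intro x
    let A := (fiber f g x).toFinset ∪ (fiber f h x).toFinset
    rw [co_add, co_mul_eq_sum f (g + h) x A, co_mul_eq_sum f g x A, co_mul_eq_sum f h x A,
      ← Finset.sum_add_distrib]
    · apply Finset.sum_congr rfl
      intro s _
      rw [co_add, mul_add]
    · intro s hs hs'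
      exact Finset.mem_union_right _ ((Set.Finite.mem_toFinset _).2 ⟨hs, hs'⟩)
    · intro s hs hs'
      exact Finset.mem_union_left _ ((Set.Finite.mem_toFinset _).2 ⟨hs, hs'⟩)
    · intro s hs hs'
      rw [co_add] at hs'
      by_cases h1 : co g (s⁻¹ * x) = 0
      · have h2 : co h (s⁻¹ * x) ≠ 0 := by
          intro h2; apply hs'; rw [h1, h2, add_zero]
        exact Finset.mem_union_right _ ((Set.Finite.mem_toFinset _).2 ⟨hs, h2⟩)
      · exact Finset.mem_union_left _ ((Set.Finite.mem_toFinset _).2 ⟨hs, h1⟩)
  right_distrib f g h := by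
    classical
    apply ext'
    intro x
    let A := (fiber f h x).toFinset ∪ (fiber g h x).toFinset
    rw [co_add, co_mul_eq_sum (f + g) h x A, co_mul_eq_sum f h x A, co_mul_eq_sum g h x A,
      ← Finset.sum_add_distrib]
    · apply Finset.sum_congr rfl
      intro s _
      rw [co_add, add_mul]
    · intro s hs hs'
      exact Finset.mem_union_right _ ((Set.Finite.mem_toFinset _).2 ⟨hs, hs'⟩)
    · intro s hs hs'
      exact Finset.mem_union_left _ ((Set.Finite.mem_toFinset _).2 ⟨hs, hs'⟩)
    · intro s hs hs'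
      rw [co_add] at hs
      by_cases h1 : co f s = 0
      · have h2 : co g s ≠ 0 := by
          intro h2; apply hs; rw [h1, h2, add_zero]
        exact Finset.mem_union_right _ ((Set.Finite.mem_toFinset _).2 ⟨h2, hs'⟩)
      · exact Finset.mem_union_left _ ((Set.Finite.mem_toFinset _).2 ⟨h1, hs'⟩)
  zero_mul f := by
    apply ext'
    intro x
    rw [co_mul_eq_sum _ _ _ ∅ (fun s hs _ => absurd rfl hs)]
    rfl
  mul_zero f := by
    apply ext'
    intro x
    rw [co_mul_eq_sum _ _ _ ∅ (fun s _ hs => absurd rfl hs)]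
    rfl
  mul_assoc := mul_assoc'
  one_mul f := by
    apply ext'
    intro x
    rw [one_def, co_single_mul, inv_one, one_mul, one_mul]
  mul_one f := by
    apply ext'
    intro x
    rw [one_def, co_mul_single, inv_one, mul_one, mul_one]

end basic

end MN

end Pool.Agent.H80R2
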